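import Pool.Agent.Helper99.BQ.Defs

/-!
Basic facts about the quaternion maps used in MP_986e36_gt.
-/

open scoped Manifold ContDiff Quaternion ENNReal Topology
open Bundle Set Metric

noncomputable section

namespace Helper99.BQ

section B
variable {a b : ℝ}

theorem cis_zero : cis 0 = 1 := by
  ext <;> simp [cis]

theorem cis_add (s t : ℝ) : cis (s + t) = cis s * cis t := by
  ext <;> simp [cis, Real.cos_add, Real.sin_add]
  ring

theorem norm_cis (s : ℝ) : ‖cis s‖ = 1 := by
  have h : ‖cis s‖ * ‖cis s‖ = 1 := by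
    rw [← Quaternion.normSq_eq_norm_mul_self, Quaternion.normSq_def']
    simp [cis]
  nlinarith [norm_nonneg (cis s)]

theorem cis_add_int (s : ℝ) (k : ℤ) : cis (s + 2 * Real.pi * k) = cis s := by
  have h1 : s + 2 * Real.pi * k = s + k * (2 * Real.pi) := by ring
  ext <;> simp [cis, h1, Real.cos_add_int_mul_two_pi, Real.sin_add_int_mul_two_pi]

theorem tw_zero (x : ℍ[ℝ]) : tw 0 0 x = x := by
  simp [tw, cis_zero]

theorem tw_tw (s t s' t' : ℝ) (x : ℍ[ℝ]) : tw s t (tw s' t' x) = tw (s + s') (t + t') x := by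
  have h : -(t + t') = -t' + -t := by ring
  simp only [tw, cis_add s s', h, cis_add (-t') (-t)]
  noncomm_ring

theorem tw_add (s t : ℝ) (x y : ℍ[ℝ]) : tw s t (x + y) = tw s t x + tw s t y := by
  simp only [tw]
  noncomm_ring

theorem tw_sub (s t : ℝ) (x y : ℍ[ℝ]) : tw s t (x - y) = tw s t x - tw s t y := by
  simp only [tw]
  noncomm_ring

theorem tw_smul (s t c : ℝ) (x : ℍ[ℝ]) : tw s t (c • x) = c • tw s t x := by
  simp only [tw, mul_smul_comm, smul_mul_assoc]

theorem norm_tw (s t : ℝ) (x : ℍ[ℝ]) : ‖tw s t x‖ = ‖x‖ := by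
  simp [tw, norm_mul, norm_cis]

/-- `tw s t` as a linear map -/
def twL (s t : ℝ) : ℍ[ℝ] →ₗ[ℝ] ℍ[ℝ] where
  toFun := tw s t
  map_add' := tw_add s t
  map_smul' := tw_smul s t

/-- `tw s t` as a linear isometry -/
def twI (s t : ℝ) : ℍ[ℝ] →ₗᵢ[ℝ] ℍ[ℝ] := ⟨twL s t, norm_tw s t⟩

theorem twI_apply (s t : ℝ) (x : ℍ[ℝ]) : twI s t x = tw s t x := rfl

theorem inner_tw (s t : ℝ) (x y : ℍ[ℝ]) :
    inner ℝ (tw s t x) (tw s t y) = (inner ℝ x y : ℝ) :=
  (twI s t).inner_map_map x y

theorem angle_tw (s t : ℝ) (x y : ℍ[ℝ]) : InnerProductGeometry.angle (tw s t x) (tw s t y) =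
    InnerProductGeometry.angle x y :=
  (twI s t).angle_map x y

theorem tw_add_int (s t : ℝ) (k l : ℤ) (x : ℍ[ℝ]) :
    tw (s + 2 * Real.pi * k) (t + 2 * Real.pi * l) x = tw s t x := by
  have h : -(t + 2 * Real.pi * l) = -t + 2 * Real.pi * ((-l : ℤ) : ℝ) := by push_cast; ring
  simp only [tw, h, cis_add_int]

theorem cis_eq (s : ℝ) : cis s = (Real.cos s) • (1 : ℍ[ℝ]) + (Real.sin s) • qi := by
  ext <;> simp [cis, qi]

theorem continuous_cis : Continuous cis := by
  have h : cis = fun s => (Real.cos s) • (1 : ℍ[ℝ]) + (Real.sin s) • qi := funext cis_eq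
  rw [h]
  exact (Real.continuous_cos.smul continuous_const).add (Real.continuous_sin.smul continuous_const)

theorem continuous_tw : Continuous fun q : ℝ × ℝ × ℍ[ℝ] => tw q.1 q.2.1 q.2.2 := by
  unfold tw
  exact ((continuous_cis.comp continuous_fst).mul (continuous_snd.comp continuous_snd)).mul
    (continuous_cis.comp (continuous_fst.comp continuous_snd).neg)

theorem qi_mul_qi : qi * qi = -1 := by
  ext <;> simp [qi]

theorem hasDerivAt_cis (s : ℝ) : HasDerivAt cis (qi * cis s) s := by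
  have h : cis = fun s => (Real.cos s) • (1 : ℍ[ℝ]) + (Real.sin s) • qi := funext cis_eq
  have h2 : qi * cis s = (-Real.sin s) • (1 : ℍ[ℝ]) + (Real.cos s) • qi := by
    rw [cis_eq, mul_add, mul_smul_comm, mul_smul_comm, qi_mul_qi, mul_one]
    module
  rw [h2]
  rw [h]
  exact ((Real.hasDerivAt_cos s).smul_const _).add ((Real.hasDerivAt_sin s).smul_const _)

theorem cis_mul_qi (s : ℝ) : cis s * qi = qi * cis s := by
  ext <;> simp [cis, qi]

theorem hasDerivAt_tw (x : ℍ[ℝ]) (u : ℝ) : HasDerivAt (fun u : ℝ => tw (a * u) (b * u) x)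
    (killing a b (tw (a * u) (b * u) x)) u := by
  have ha : HasDerivAt (fun y : ℝ => a * y) a u := by
    simpa using (hasDerivAt_id u).const_mul a
  have hb : HasDerivAt (fun y : ℝ => -(b * y)) (-b) u := by
    have h : HasDerivAt (fun y : ℝ => b * y) b u := by
      simpa using (hasDerivAt_id u).const_mul b
    exact h.neg
  have h1 : HasDerivAt (fun u : ℝ => cis (a * u)) (a • (qi * cis (a * u))) u :=
    (hasDerivAt_cis (a * u)).scomp u ha
  have h2 : HasDerivAt (fun u : ℝ => cis (-(b * u))) ((-b) • (qi * cis (-(b * u)))) u :=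
    HasDerivAt.scomp (g₁ := cis) (h := fun y : ℝ => -(b * y)) u (hasDerivAt_cis (-(b * u))) hb
  have h3 : HasDerivAt (fun u : ℝ => cis (a * u) * x * cis (-(b * u)))
      (a • (qi * cis (a * u)) * x * cis (-(b * u)) +
      cis (a * u) * x * (-b) • (qi * cis (-(b * u)))) u := (h1.mul_const x).mul h2
  have h5 : a • (qi * cis (a * u)) * x * cis (-(b * u)) =
      a • (qi * (cis (a * u) * x * cis (-(b * u)))) := by
    simp only [smul_mul_assoc, mul_assoc]
  have h6 : cis (a * u) * x * (-b) • (qi * cis (-(b * u))) =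
      -(b • (cis (a * u) * x * cis (-(b * u)) * qi)) := by
    rw [mul_smul_comm, neg_smul, ← cis_mul_qi, ← mul_assoc]
  have h4 : a • (qi * cis (a * u)) * x * cis (-(b * u)) +
      cis (a * u) * x * (-b) • (qi * cis (-(b * u))) = killing a b (tw (a * u) (b * u) x) := by
    rw [h5, h6, killing, tw, sub_eq_add_neg]
  rw [← h4]
  exact h3

theorem tw_killing (s t : ℝ) (x : ℍ[ℝ]) : tw s t (killing a b x) = killing a b (tw s t x) := by
  have h1 : tw s t (qi * x) = qi * tw s t x := by
    simp only [tw]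
    rw [← mul_assoc (cis s) qi x, cis_mul_qi]; simp only [mul_assoc]
  have h2 : tw s t (x * qi) = tw s t x * qi := by
    simp only [tw]
    rw [mul_assoc (cis s * x) (cis (-t)) qi, cis_mul_qi]; simp only [mul_assoc]
  rw [killing, tw_sub, tw_smul, tw_smul, h1, h2, killing]

theorem killing_add (x y : ℍ[ℝ]) : killing a b (x + y) = killing a b x + killing a b y := by
  simp only [killing, mul_add, add_mul, smul_add]
  abel

theorem killing_smul (c : ℝ) (x : ℍ[ℝ]) : killing a b (c • x) = c • killing a b x := by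
  simp only [killing, mul_smul_comm, smul_mul_assoc, smul_sub, smul_comm c]

theorem inner_def' (x y : ℍ[ℝ]) : (inner ℝ x y : ℝ) =
    x.re * y.re + x.imI * y.imI + x.imJ * y.imJ + x.imK * y.imK := by
  rw [Quaternion.inner_def]
  simp

theorem inner_killing (x y : ℍ[ℝ]) :
    inner ℝ (killing a b x) y = -(inner ℝ x (killing a b y) : ℝ) := by
  simp only [inner_def', killing, qi]
  simp
  ring

theorem inner_killing_self (x : ℍ[ℝ]) : inner ℝ x (killing a b x) = (0 : ℝ) := by
  have h := inner_killing (a := a) (b := b) x x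
  rw [real_inner_comm] at h
  linarith

theorem norm_qi : ‖qi‖ = 1 := by
  have h : ‖qi‖ * ‖qi‖ = 1 := by
    rw [← Quaternion.normSq_eq_norm_mul_self, Quaternion.normSq_def']
    simp [qi]
  nlinarith [norm_nonneg qi]

theorem norm_killing_le (x : ℍ[ℝ]) : ‖killing a b x‖ ≤ (|a| + |b|) * ‖x‖ := by
  unfold killing
  refine (norm_sub_le _ _).trans ?_
  rw [norm_smul, norm_smul, norm_mul, norm_mul, norm_qi, Real.norm_eq_abs, Real.norm_eq_abs]
  linarith

/-- `killing` as a linear map -/
def killingL (a b : ℝ) : ℍ[ℝ] →ₗ[ℝ] ℍ[ℝ] where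
  toFun := killing a b
  map_add' := killing_add
  map_smul' := killing_smul

theorem contDiff_killing : ContDiff ℝ ∞ (killing a b) :=
  (LinearMap.toContinuousLinearMap (killingL a b)).contDiff

theorem dR_bdd (a b : ℝ) (x y : ℍ[ℝ]) : BddBelow (Set.range fun u : ℝ =>
    Real.sqrt (InnerProductGeometry.angle x (tw (a * u) (b * u) y) ^ 2 + u ^ 2)) :=
  ⟨0, by rintro _ ⟨u, rfl⟩; exact Real.sqrt_nonneg _⟩

theorem dR_le (a b : ℝ) (x y : ℍ[ℝ]) (u : ℝ) : dR a b x y ≤
    Real.sqrt (InnerProductGeometry.angle x (tw (a * u) (b * u) y) ^ 2 + u ^ 2) :=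
  ciInf_le (dR_bdd a b x y) u

theorem dR_nonneg (a b : ℝ) (x y : ℍ[ℝ]) : 0 ≤ dR a b x y :=
  Real.iInf_nonneg fun _ => Real.sqrt_nonneg _

theorem continuous_angle_tw (a b : ℝ) (x y : ℍ[ℝ]) :
    Continuous fun u : ℝ => InnerProductGeometry.angle x (tw (a * u) (b * u) y) := by
  have h : ∀ u : ℝ, InnerProductGeometry.angle x (tw (a * u) (b * u) y) =
      Real.arccos (inner ℝ x (tw (a * u) (b * u) y) / (‖x‖ * ‖y‖)) := by
    intro u
    rw [InnerProductGeometry.angle, norm_tw]
  simp only [h]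
  have h2 : Continuous fun u : ℝ => cis (a * u) * y * cis (-(b * u)) :=
    ((continuous_cis.comp (continuous_const.mul continuous_id)).mul continuous_const).mul
      (continuous_cis.comp (continuous_const.mul continuous_id).neg)
  exact Real.continuous_arccos.comp ((continuous_const.inner h2).div_const _)

/-- the infimum in `dR` is attained -/
theorem dR_attained (a b : ℝ) (x y : ℍ[ℝ]) : ∃ u : ℝ, dR a b x y =
    Real.sqrt (InnerProductGeometry.angle x (tw (a * u) (b * u) y) ^ 2 + u ^ 2) := by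
  set f : ℝ → ℝ := fun u =>
    Real.sqrt (InnerProductGeometry.angle x (tw (a * u) (b * u) y) ^ 2 + u ^ 2) with hf
  have hc : Continuous f :=
    Real.continuous_sqrt.comp (((continuous_angle_tw a b x y).pow 2).add (continuous_id.pow 2))
  have hlow : ∀ u, |u| ≤ f u := by
    intro u
    rw [hf, ← Real.sqrt_sq_eq_abs]
    exact Real.sqrt_le_sqrt (by nlinarith [sq_nonneg (InnerProductGeometry.angle x (tw (a * u) (b * u) y))])
  have hlim : Filter.Tendsto f (Filter.cocompact ℝ) Filter.atTop := by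
    refine Filter.tendsto_atTop_mono (f := fun u : ℝ => ‖u‖) hlow ?_
    exact tendsto_norm_cocompact_atTop (E := ℝ)
  obtain ⟨u, hu⟩ := hc.exists_forall_le hlim
  refine ⟨u, le_antisymm (dR_le a b x y u) ?_⟩
  exact le_ciInf hu

theorem dR_tw (a b s t : ℝ) (x y : ℍ[ℝ]) : dR a b (tw s t x) (tw s t y) = dR a b x y := by
  unfold dR
  congr 1
  ext u
  have h : tw (a * u) (b * u) (tw s t y) = tw s t (tw (a * u) (b * u) y) := by
    rw [tw_tw, tw_tw, add_comm s, add_comm t]
  rw [h, angle_tw]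

theorem dR_le_angle (a b : ℝ) (x y : ℍ[ℝ]) : dR a b x y ≤ InnerProductGeometry.angle x y := by
  refine (dR_le a b x y 0).trans ?_
  simp [tw_zero, Real.sqrt_sq (InnerProductGeometry.angle_nonneg x y)]

end B

end Helper99.BQ
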