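import Mathlib

/-!
MP_986e36_gt: compact quotients of Hilbert space and biquotients. The definitions that the final
statement uses.
-/

open scoped Manifold ContDiff ENNReal Topology
open Bundle Set Metric

noncomputable section

namespace Helper99.BQ

/-! ### Quotients by groups of isometries -/

/-- `R` is (isometric to) the quotient of `X` by the group `Γ` of isometries of `X`, the quotient
map being `p`: `p` is onto, and the distance in `R` is the quotient distance
`d (p x) (p y) = inf {d x (γ y) | γ ∈ Γ}`. (The fibres of `p` are then the closures of the orbits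
of `Γ`, see `IsQuotientBy.eq_iff`.) -/
def IsQuotientBy {X R : Type*} [PseudoEMetricSpace X] [PseudoEMetricSpace R]
    (Γ : Subgroup (X ≃ᵢ X)) (p : X → R) : Prop :=
  Function.Surjective p ∧ ∀ x y : X, edist (p x) (p y) = ⨅ γ : Γ, edist x ((γ : X ≃ᵢ X) y)

/-- The fibres of the quotient map are the closures of the orbits. -/
theorem IsQuotientBy.eq_iff {X R : Type*} [PseudoEMetricSpace X] [EMetricSpace R]
    {Γ : Subgroup (X ≃ᵢ X)} {p : X → R} (h : IsQuotientBy Γ p) (x y : X) :
    p x = p y ↔ x ∈ closure (Set.range fun γ : Γ => (γ : X ≃ᵢ X) y) := by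
  rw [← edist_eq_zero, h.2, EMetric.mem_closure_iff]
  constructor
  · intro h0 ε hε
    rw [← h0, gt_iff_lt, iInf_lt_iff] at hε
    obtain ⟨γ, hγ⟩ := hε
    exact ⟨_, ⟨γ, rfl⟩, hγ⟩
  · intro h0
    refine le_antisymm (le_of_forall_gt fun ε hε => ?_) zero_le
    obtain ⟨_, ⟨γ, rfl⟩, hγ⟩ := h0 ε hε
    exact (iInf_le _ γ).trans_lt hγ

/-! ### Riemannian manifolds -/

/-- Euclidean space `ℝⁿ`. -/
def EE (n : ℕ) : Type := EuclideanSpace ℝ (Fin n)

/-- The norm of Euclidean space. -/
@[reducible] def nEE (n : ℕ) : NormedAddCommGroup (EE n) :=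
  (inferInstance : NormedAddCommGroup (EuclideanSpace ℝ (Fin n)))

attribute [instance] nEE

/-- Euclidean space as a normed space. -/
@[reducible] def sEE (n : ℕ) : NormedSpace ℝ (EE n) :=
  (inferInstance : NormedSpace ℝ (EuclideanSpace ℝ (Fin n)))

attribute [instance] sEE

section Riem

variable {n : ℕ} {M : Type*} [TopologicalSpace M] [ChartedSpace (EE n) M]
  [IsManifold 𝓘(ℝ, EE n) ∞ M]

variable (n M) in
/-- Smooth Riemannian metrics on the smooth `n`-manifold `M`. -/
abbrev RMetric : Type _ :=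
  ContMDiffRiemannianMetric 𝓘(ℝ, EE n) ∞ (EE n) (fun x : M => TangentSpace 𝓘(ℝ, EE n) x)

/-- The norm of the tangent vector `v` at `x`. -/
def vnorm (g : RMetric n M) (x : M) (v : EE n) : ℝ := √(g.inner x v v)

end Riem

/-- The distance of `M` is the Riemannian distance of the Riemannian metric `g`, that is, the
infimum of the lengths of `C¹` paths. -/
def IsDistOf {n : ℕ} {M : Type*} [EMetricSpace M] [ChartedSpace (EE n) M]
    [IsManifold 𝓘(ℝ, EE n) ∞ M] (g : RMetric n M) : Prop :=
  letI : RiemannianBundle (fun x : M => TangentSpace 𝓘(ℝ, EE n) x) := ⟨g.toRiemannianMetric⟩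
  IsRiemannianManifold 𝓘(ℝ, EE n) M

/-! ### Biquotients -/

section Lie

variable {n : ℕ} {G : Type*} [Group G] [TopologicalSpace G] [ChartedSpace (EE n) G]
  [IsManifold 𝓘(ℝ, EE n) ∞ G]

/-- The Riemannian metric `g` on the Lie group `G` is bi-invariant: left and right translations
preserve the norms of tangent vectors. -/
def IsBiInvariant (g : RMetric n G) : Prop :=
  (∀ (a x : G) (v : EE n),
    vnorm g (a * x) (mfderiv 𝓘(ℝ, EE n) 𝓘(ℝ, EE n) (fun y => a * y) x v) = vnorm g x v) ∧
  ∀ (a x : G) (v : EE n),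
    vnorm g (x * a) (mfderiv 𝓘(ℝ, EE n) 𝓘(ℝ, EE n) (fun y => y * a) x v) = vnorm g x v

end Lie

/-- `R` is a biquotient: it is isometric to the quotient of a compact Lie group `G` with a
bi-invariant Riemannian metric by a group of isometries of `G`. -/
def IsBiquotient.{u} (R : Type*) [PseudoEMetricSpace R] : Prop :=
  ∃ (n : ℕ) (G : Type u) (_ : Group G) (_ : EMetricSpace G) (_ : ChartedSpace (EE n) G)
    (_ : IsManifold 𝓘(ℝ, EE n) ∞ G) (g : RMetric n G),
    CompactSpace G ∧ LieGroup 𝓘(ℝ, EE n) ∞ G ∧ IsDistOf g ∧ IsBiInvariant g ∧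
    ∃ (Γ : Subgroup (G ≃ᵢ G)) (p : G → R), IsQuotientBy Γ p

end Helper99.BQ
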