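import Mathlib
import Pool.Agent.Helper99.BQ.Statement

/-!
MP_986e36_gt: compact quotients of Hilbert space and biquotients. Definitions.
-/

open scoped Manifold ContDiff Quaternion ENNReal Topology
open Bundle Set Metric

noncomputable section

namespace Helper99.BQ

/-! ### The metric model of the counterexample -/

/-- the unit quaternion `cos θ + i sin θ` -/
def cis (θ : ℝ) : ℍ[ℝ] := ⟨Real.cos θ, Real.sin θ, 0, 0⟩

/-- left multiplication by `cis σ₁` and right multiplication by `cis (-σ₂)` -/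
def tw (σ₁ σ₂ : ℝ) (x : ℍ[ℝ]) : ℍ[ℝ] := cis σ₁ * x * cis (-σ₂)

/-- the quaternion unit `i` -/
def qi : ℍ[ℝ] := ⟨0, 1, 0, 0⟩

/-- the Killing field `V x = a i x - b x i` -/
def killing (a b : ℝ) (x : ℍ[ℝ]) : ℍ[ℝ] := a • (qi * x) - b • (x * qi)

/-- the distance of the quotient `(S³ × ℝ) / ℝ`, where `u ∈ ℝ` acts on `S³ × ℝ` by
`(x, t) ↦ (tw (a u) (b u) x, t + u)`. -/
def dR (a b : ℝ) (x y : ℍ[ℝ]) : ℝ :=
  ⨅ u : ℝ, Real.sqrt (InnerProductGeometry.angle x (tw (a * u) (b * u) y) ^ 2 + u ^ 2)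

/-- distance on the multiplicative group of nonzero quaternions `ℝ_{>0} × S³` (product metric) -/
def dG (x y : ℍ[ℝ]) : ℝ :=
  Real.sqrt (InnerProductGeometry.angle x y ^ 2 + (Real.log ‖x‖ - Real.log ‖y‖) ^ 2)

/-! ### The path space model: `L²([0,1], ℍ)` -/

/-- Lebesgue measure on `[0,1]` -/
def μI : MeasureTheory.Measure ℝ := MeasureTheory.volume.restrict (Icc 0 1)

/-- the Hilbert space `L²([0,1], ℍ)` -/
abbrev HH : Type := MeasureTheory.Lp ℍ[ℝ] 2 μI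

/-- `C¹` paths of nonzero quaternions -/
structure IsPath (g : ℝ → ℍ[ℝ]) : Prop where
  smooth : ContDiffOn ℝ 1 g (Icc 0 1)
  ne : ∀ t ∈ Icc (0 : ℝ) 1, g t ≠ 0

/-- left logarithmic derivative `g⁻¹ g'` -/
def vel (g : ℝ → ℍ[ℝ]) (t : ℝ) : ℍ[ℝ] := (g t)⁻¹ * derivWithin g (Icc 0 1) t

/-! ### Metric groups -/

/-- bi-invariant metric with exact midpoints -/
structure BiInv (K : Type*) [Group K] [MetricSpace K] : Prop where
  left : ∀ g x y : K, dist (g * x) (g * y) = dist x y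
  right : ∀ g x y : K, dist (x * g) (y * g) = dist x y
  mid : ∀ x y : K, ∃ z : K, dist x z = dist x y / 2 ∧ dist z y = dist x y / 2

/-- a good local chart at the identity of a metric group -/
structure LocChart (K : Type*) [Group K] [MetricSpace K]
    (E : Type*) [NormedAddCommGroup E] [InnerProductSpace ℝ E] where
  ψ : E → K
  μ : E → E → E
  C : ℝ
  δ : ℝ
  C_nonneg : 0 ≤ C
  δ_pos : 0 < δ
  ψ_zero : ψ 0 = 1
  nhds : ∀ r > 0, ψ '' ball 0 r ∈ 𝓝 (1 : K)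
  metric : ∀ ε > 0, ∃ r > 0, ∀ x y : E, ‖x‖ < r → ‖y‖ < r →
    |dist (ψ x) (ψ y) - ‖x - y‖| ≤ ε * ‖x - y‖
  mul : ∀ x y : E, ‖x‖ < δ → ‖y‖ < δ → ψ x * ψ y = ψ (μ x y)
  μ_zero : μ 0 0 = 0
  μ_lip : ∀ x y x' y' : E, ‖x‖ < δ → ‖y‖ < δ → ‖x'‖ < δ → ‖y'‖ < δ →
    ‖μ x y - μ x' y' - (x - x') - (y - y')‖ ≤
      C * (‖x‖ + ‖y‖ + ‖x'‖ + ‖y'‖) * (‖x - x'‖ + ‖y - y'‖)

/-- exponential map, local properties -/
structure PreExp (K : Type*) [Group K] [MetricSpace K]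
    (E : Type*) [NormedAddCommGroup E] [InnerProductSpace ℝ E] where
  exp : E → K
  add : ∀ (X : E) (s t : ℝ), exp ((s + t) • X) = exp (s • X) * exp (t • X)
  lip : ∀ X Y : E, dist (exp X) (exp Y) ≤ ‖X - Y‖
  lower : ∀ ε > 0, ∃ r > 0, ∀ X Y : E, ‖X‖ < r → ‖Y‖ < r →
    (1 - ε) * ‖X - Y‖ ≤ dist (exp X) (exp Y)
  nhds : ∀ r > 0, exp '' ball 0 r ∈ 𝓝 (1 : K)
  bch : ∀ ε > 0, ∃ r > 0, ∀ X W : E, ‖X‖ < r → ‖W‖ < r →
    ∃ Z : E, exp Z = exp X * exp W ∧ ‖Z - X - W‖ ≤ ε * ‖W‖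

/-- exponential map with conjugation and minimal geodesics -/
structure ExpMap (K : Type*) [Group K] [MetricSpace K]
    (E : Type*) [NormedAddCommGroup E] [InnerProductSpace ℝ E] extends PreExp K E where
  conj : ∀ (g : K) (X : E), ∃ X' : E, ‖X'‖ = ‖X‖ ∧ ∀ t : ℝ, g * exp (t • X) * g⁻¹ = exp (t • X')
  surj : ∀ x : K, ∃ X : E, exp X = x ∧ ‖X‖ = dist 1 x

/-- the one-parameter groups of `X` and `Y` commute -/
def Comm {K : Type*} [Group K] [MetricSpace K]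
    {E : Type*} [NormedAddCommGroup E] [InnerProductSpace ℝ E] (e : PreExp K E) (X Y : E) : Prop :=
  ∀ s t : ℝ, e.exp (s • X) * e.exp (t • Y) = e.exp (t • Y) * e.exp (s • X)

/-- a maximal torus, seen in the Lie algebra -/
structure Torus {K : Type*} [Group K] [MetricSpace K]
    {E : Type*} [NormedAddCommGroup E] [InnerProductSpace ℝ E] (e : PreExp K E) where
  t : Submodule ℝ E
  add : ∀ X ∈ t, ∀ Y ∈ t, e.exp (X + Y) = e.exp X * e.exp Y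
  cocompact : ∃ R₀ : ℝ, ∀ Y ∈ t, ∃ l ∈ t, e.exp l = 1 ∧ ‖Y - l‖ ≤ R₀
  conj_into : ∀ X : E, ∃ (k : K) (X' : E), X' ∈ t ∧ ‖X'‖ = ‖X‖ ∧
    ∀ s : ℝ, e.exp (s • X) = k⁻¹ * e.exp (s • X') * k

/-- Submetry. -/
structure Submetry {K R : Type*} [MetricSpace K] [MetricSpace R] (p : K → R) : Prop where
  le : ∀ x y : K, dist (p x) (p y) ≤ dist x y
  lift : ∀ (x : K) (y : R), ∃ x' : K, p x' = y ∧ dist x x' = dist (p x) y

/-- The one-parameter family of geodesics through one point with the same frequencies and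
different momenta. -/
structure GeoFamily (R : Type*) [MetricSpace R] where
  I : Set ℝ
  I_unc : ¬ I.Countable
  x₀ : R
  c : ℝ → ℝ → R
  Φ : ℝ → (Fin 3 → ℝ) → R
  om : Fin 3 → ℝ
  m : ℝ → Fin 3 → ℝ
  w : Fin 3 → ℝ
  c_zero : ∀ s ∈ I, c s 0 = x₀
  geo : ∀ s ∈ I, ∀ t₀ t : ℝ, 0 ≤ t → t ≤ 1 → dist (c s t₀) (c s (t₀ + t)) = t
  uniq : ∀ s ∈ I, ∀ t₀ t : ℝ, 0 ≤ t → t ≤ 1 → ∀ z : R, dist (c s t₀) z = t →
    dist z (c s (t₀ + 1)) = 1 - t → z = c s (t₀ + t)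
  Φ_cont : ∀ s ∈ I, Continuous (Φ s)
  Φ_per : ∀ s ∈ I, ∀ (η : Fin 3 → ℝ) (k : Fin 3 → ℤ), Φ s (fun i => η i + 2 * Real.pi * k i) = Φ s η
  Φ_c : ∀ s ∈ I, ∀ t : ℝ, Φ s (t • om) = c s t
  lower : ∀ s ∈ I, ∃ C : ℝ, 0 ≤ C ∧ ∀ (r : ℝ) (η : Fin 3 → ℝ), 0 < r → r ≤ 1 → ‖η‖ ≤ r / 6 →
    r + ∑ i, m s i * η i - C * r ^ 2 ≤ dist x₀ (Φ s (r • om + η))
  m_om : ∀ s ∈ I, ∑ i, m s i * om i = 1
  m_diff : ∀ s ∈ I, ∀ s' ∈ I, s ≠ s' → ∃ σ : ℝ, σ ≠ 0 ∧ m s - m s' = σ • w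
  w_int : ∀ k : Fin 3 → ℤ, ∑ i, w i * k i = 0 → k 1 = 0
  om_ne : om 1 ≠ 0

end Helper99.BQ
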