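import Mathlib
import Pool.Agent.Helper99.BQ.Defs

/-!
A quotient of a separable Hilbert space by isometries is a quotient of every infinite-dimensional
Hilbert space by isometries.
-/

open scoped ENNReal Topology
open Set Metric

noncomputable section

namespace Helper99.BQ

theorem exists_embedding (H₀ : Type*) [NormedAddCommGroup H₀] [InnerProductSpace ℝ H₀]
    [CompleteSpace H₀] [TopologicalSpace.SeparableSpace H₀] (H : Type*) [NormedAddCommGroup H]
    [InnerProductSpace ℝ H] [CompleteSpace H] (hH : ¬ FiniteDimensional ℝ H) :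
    Nonempty (H₀ →ₗᵢ[ℝ] H) := by
  obtain ⟨w₀, b₀, -⟩ := exists_hilbertBasis ℝ H₀
  obtain ⟨w, b, -⟩ := exists_hilbertBasis ℝ H
  have hw₀ : Countable w₀ := by
    refine Pairwise.countable_of_isOpen_disjoint (s := fun i : w₀ => ball (b₀ i) (1 / 2)) ?_
      (fun i => isOpen_ball) (fun i => ⟨b₀ i, mem_ball_self (by norm_num)⟩)
    intro i j hij
    refine ball_disjoint_ball ?_
    have h1 : ‖b₀ i - b₀ j‖ ^ 2 = 2 := by
      rw [@norm_sub_sq_real, b₀.orthonormal.2 hij, b₀.orthonormal.1, b₀.orthonormal.1]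
      norm_num
    rw [dist_eq_norm]
    nlinarith [norm_nonneg (b₀ i - b₀ j)]
  have hw : Infinite w := by
    rw [← not_finite_iff_infinite]
    intro hfin
    apply hH
    have h1 : FiniteDimensional ℝ (Submodule.span ℝ (Set.range b)) :=
      FiniteDimensional.span_of_finite ℝ (Set.finite_range b)
    have h2 := b.dense_span
    rw [(Submodule.closed_of_finiteDimensional _).submodule_topologicalClosure_eq] at h2
    rw [h2] at h1
    exact LinearEquiv.finiteDimensional (Submodule.topEquiv (R := ℝ) (M := H))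
  obtain ⟨f⟩ : Nonempty (w₀ ↪ w) := by
    obtain ⟨g, hg⟩ := exists_injective_nat w₀
    exact ⟨(⟨g, hg⟩ : w₀ ↪ ℕ).trans (Infinite.natEmbedding w)⟩
  have hv : Orthonormal ℝ (fun i : w₀ => b (f i)) := b.orthonormal.comp f f.injective
  exact ⟨hv.orthogonalFamily.linearIsometry.comp b₀.repr.toLinearIsometry⟩

theorem isQuotientBy_any {R : Type*} [PseudoEMetricSpace R] {H₀ : Type*} [NormedAddCommGroup H₀]
    [InnerProductSpace ℝ H₀] [CompleteSpace H₀] {H : Type*} [NormedAddCommGroup H]
    [InnerProductSpace ℝ H] [CompleteSpace H] (J : H₀ →ₗᵢ[ℝ] H) {Γ : Subgroup (H₀ ≃ᵢ H₀)}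
    {p : H₀ → R} (hp : IsQuotientBy Γ p) :
    ∃ (Γ' : Subgroup (H ≃ᵢ H)) (p' : H → R), IsQuotientBy Γ' p' := by
  let A : H →L[ℝ] H₀ := ContinuousLinearMap.adjoint J.toContinuousLinearMap
  have hAJ : ∀ x : H₀, A (J x) = x := by
    intro x
    refine ext_inner_right ℝ fun y => ?_
    rw [ContinuousLinearMap.adjoint_inner_left]
    exact J.inner_map_map x y
  have hA : ∀ x : H, ‖A x‖ ≤ ‖x‖ := by
    intro x
    have h1 : ‖A‖ ≤ 1 := by
      rw [LinearIsometryEquiv.norm_map]
      exact J.norm_toContinuousLinearMap_le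
    calc ‖A x‖ ≤ ‖A‖ * ‖x‖ := A.le_opNorm x
      _ ≤ 1 * ‖x‖ := by gcongr
      _ = ‖x‖ := one_mul _
  have hAi : ∀ x y : H, edist (A x) (A y) ≤ edist x y := by
    intro x y
    rw [edist_dist, edist_dist, dist_eq_norm, dist_eq_norm, ← map_sub]
    exact ENNReal.ofReal_le_ofReal (hA _)
  -- pythagoras
  have hpy : ∀ (u : H₀) (z : H), A z = 0 → ‖J u + z‖ ^ 2 = ‖u‖ ^ 2 + ‖z‖ ^ 2 := by
    intro u z hz
    have h0 : inner ℝ (J u) z = 0 := by
      have := ContinuousLinearMap.adjoint_inner_right J.toContinuousLinearMap u z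
      change inner ℝ u (A z) = inner ℝ (J u) z at this
      rw [← this, hz, inner_zero_right]
    rw [@norm_add_sq_real, h0, J.norm_map]
    ring
  let Γ' : Subgroup (H ≃ᵢ H) :=
    { carrier := {φ | ∃ γ ∈ Γ, ∀ x : H, A (φ x) = γ (A x)}
      one_mem' := ⟨1, Γ.one_mem, fun x => rfl⟩
      mul_mem' := by
        rintro φ ψ ⟨γ, hγ, h1⟩ ⟨δ, hδ, h2⟩
        refine ⟨γ * δ, Γ.mul_mem hγ hδ, fun x => ?_⟩
        change A (φ (ψ x)) = γ (δ (A x))
        rw [h1, h2]
      inv_mem' := by
        rintro φ ⟨γ, hγ, h1⟩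
        refine ⟨γ⁻¹, Γ.inv_mem hγ, fun x => ?_⟩
        have h2 := h1 (φ.symm x)
        rw [φ.apply_symm_apply] at h2
        change A (φ.symm x) = γ.symm (A x)
        rw [h2, γ.symm_apply_apply] }
  refine ⟨Γ', fun x => p (A x), ?_, ?_⟩
  · intro r
    obtain ⟨x, hx⟩ := hp.1 r
    exact ⟨J x, by simp only [hAJ, hx]⟩
  · intro x y
    change edist (p (A x)) (p (A y)) = _
    rw [hp.2]
    apply le_antisymm
    · refine le_iInf fun φ => ?_
      obtain ⟨φ, γ, hγ, h1⟩ := φ
      refine (iInf_le _ (⟨γ, hγ⟩ : Γ)).trans ?_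
      change edist (A x) (γ (A y)) ≤ edist x (φ y)
      rw [← h1]
      exact hAi _ _
    · refine le_iInf fun γ => ?_
      obtain ⟨γ, hγ⟩ := γ
      change _ ≤ edist (A x) (γ (A y))
      -- the extension of `γ` by a translation of the complement
      let F : (H₀ ≃ᵢ H₀) → H → H → H := fun δ c z => J (δ (A z)) + (z - J (A z) + c)
      have hAF : ∀ (δ : H₀ ≃ᵢ H₀) (c z : H), A c = 0 → A (F δ c z) = δ (A z) := by
        intro δ c z hc
        simp only [F, map_add, map_sub, hAJ, hc]
        simp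
      have hFF : ∀ (δ : H₀ ≃ᵢ H₀) (c z : H), A c = 0 → F δ.symm (-c) (F δ c z) = z := by
        intro δ c z hc
        change J (δ.symm (A (F δ c z))) + (F δ c z - J (A (F δ c z)) + -c) = z
        rw [hAF δ c z hc, δ.symm_apply_apply]
        simp only [F]
        abel
      have hFi : ∀ (δ : H₀ ≃ᵢ H₀) (c : H), A c = 0 → Isometry (F δ c) := by
        intro δ c hc
        refine Isometry.of_dist_eq fun z z' => ?_
        have e1 : F δ c z - F δ c z' =
            J (δ (A z) - δ (A z')) + ((z - z') - J (A (z - z'))) := by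
          simp only [F, map_sub]
          abel
        have e2 : z - z' = J (A (z - z')) + ((z - z') - J (A (z - z'))) := by abel
        have e3 : A ((z - z') - J (A (z - z'))) = 0 := by
          rw [map_sub, hAJ, sub_self]
        have h1 : ‖δ (A z) - δ (A z')‖ = ‖A (z - z')‖ := by
          rw [← dist_eq_norm, δ.isometry.dist_eq, dist_eq_norm, map_sub]
        rw [dist_eq_norm, dist_eq_norm, e1]
        have h2 := hpy (δ (A z) - δ (A z')) _ e3
        have h3 := hpy (A (z - z')) _ e3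
        rw [← e2] at h3
        rw [h1, ← h3] at h2
        exact (pow_left_inj₀ (norm_nonneg _) (norm_nonneg _) two_ne_zero).1 h2
      let c : H := (x - J (A x)) - (y - J (A y))
      have hc : A c = 0 := by
        simp only [c, map_sub, hAJ, sub_self]
      have hc' : A (-c) = 0 := by rw [map_neg, hc, neg_zero]
      let φ : H ≃ᵢ H := IsometryEquiv.mk' (F γ c) (F γ.symm (-c))
        (fun z => by
          have := hFF γ.symm (-c) z hc'
          rw [neg_neg] at this
          exact this) (hFi γ c hc)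
      have hφ : φ ∈ Γ' := ⟨γ, hγ, fun z => hAF γ c z hc⟩
      refine (iInf_le _ (⟨φ, hφ⟩ : Γ')).trans ?_
      change edist x (F γ c y) ≤ _
      have e4 : x - F γ c y = J (A x - γ (A y)) := by
        simp only [F, c, map_sub]
        abel
      rw [edist_dist, edist_dist, dist_eq_norm, dist_eq_norm, e4, J.norm_map]

theorem infinite_dim_any {H₀ : Type*} [NormedAddCommGroup H₀]
    [InnerProductSpace ℝ H₀] [CompleteSpace H₀] [TopologicalSpace.SeparableSpace H₀]
    {R : Type*} [PseudoEMetricSpace R] {Γ : Subgroup (H₀ ≃ᵢ H₀)}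
    {p : H₀ → R} (hp : IsQuotientBy Γ p) (H : Type*) [NormedAddCommGroup H]
    [InnerProductSpace ℝ H] [CompleteSpace H] (hH : ¬ FiniteDimensional ℝ H) :
    ∃ (Γ' : Subgroup (H ≃ᵢ H)) (p' : H → R), IsQuotientBy Γ' p' := by
  obtain ⟨J⟩ := exists_embedding H₀ H hH
  exact isQuotientBy_any J hp

end Helper99.BQ
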