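import Pool.Agent.Helper99.BQ.MainQ2
import Pool.Agent.Helper34.BQ.S1
import Pool.Agent.Helper86.BQ.S2
import Pool.Agent.Helper4.BQ.S3

/-!
MP_986e36_gt, Q2: the final theorem.
-/

open scoped Manifold ContDiff Quaternion ENNReal Topology
open Bundle Set Metric

noncomputable section

namespace Helper99.BQ

/-- **The counterexample to Q2**: a compact simply connected Riemannian manifold onto which every
infinite-dimensional real Hilbert space has a Riemannian submersion, and which is not a
biquotient. -/
theorem counterexampleQ2.{u, v} :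
    ∃ (R : Type) (_ : EMetricSpace R) (_ : ChartedSpace (EE 3) R)
      (_ : IsManifold 𝓘(ℝ, EE 3) ∞ R) (g : RMetric 3 R),
      IsDistOf g ∧ CompactSpace R ∧ SimplyConnectedSpace R ∧
      (∀ (H : Type v) [NormedAddCommGroup H] [InnerProductSpace ℝ H] [CompleteSpace H],
        ¬ FiniteDimensional ℝ H → ∃ f : H → R, IsRiemSubmersion g f) ∧
      ¬ IsBiquotient.{u} R := by
  obtain ⟨hol, hhol⟩ := exists_hol_smooth_of exists_volterra
  exact counterexample2.{u, v} (hol := hol) hhol fun a b h hh => proj_deriv a b hh

end Helper99.BQ
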