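import Pool.Agent.Helper34.BQ.F2
import Pool.Agent.Helper34.BQ.SphereSC
import Pool.Agent.Helper35.BQ.E4c
import Pool.Agent.Helper35.BQ.S34
import Pool.Agent.Helper7.BQ.H5
import Pool.Agent.Helper38.BQ.L6
import Pool.Agent.Helper40.BQ.E1
import Pool.Agent.Helper78.BQ.R4
import Pool.Agent.Helper7.BQ.E2
import Pool.Agent.Helper82.BQ.D5
import Pool.Agent.Helper72.BQ.L5
import Pool.Agent.Helper90.BQ.L1
import Pool.Agent.Helper90.BQ.L23
import Pool.Agent.Helper99.BQ.AnyH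

/-!
Assembly of the counterexample of MP_986e36_gt.
-/

open scoped Manifold ContDiff Quaternion ENNReal Topology
open Bundle Set Metric

noncomputable section

namespace Helper99.BQ

section G
variable {n : ℕ} {G : Type*} [Group G] [EMetricSpace G]
  [ChartedSpace (EuclideanSpace ℝ (Fin n)) G] [LieGroup (𝓡 n) ∞ G]
  [RiemannianBundle (fun x : G => TangentSpace (𝓡 n) x)]
  [IsContMDiffRiemannianBundle (𝓡 n) ∞ (EuclideanSpace ℝ (Fin n))
      (fun x : G => TangentSpace (𝓡 n) x)]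
  [IsRiemannianManifold (𝓡 n) G]

theorem exists_chart :
    ∃ (ψ : EuclideanSpace ℝ (Fin n) → G)
      (μ : EuclideanSpace ℝ (Fin n) → EuclideanSpace ℝ (Fin n) → EuclideanSpace ℝ (Fin n))
      (C δ : ℝ), 0 ≤ C ∧ 0 < δ ∧ ψ 0 = 1 ∧ (∀ r > 0, ψ '' ball 0 r ∈ 𝓝 (1 : G)) ∧
      (∀ ε > 0, ∃ r > 0, ∀ x y, ‖x‖ < r → ‖y‖ < r →
        ENNReal.ofReal ((1 - ε) * ‖x - y‖) ≤ edist (ψ x) (ψ y) ∧
        edist (ψ x) (ψ y) ≤ ENNReal.ofReal ((1 + ε) * ‖x - y‖)) ∧
      (∀ x y, ‖x‖ < δ → ‖y‖ < δ → ψ x * ψ y = ψ (μ x y)) ∧ μ 0 0 = 0 ∧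
      ∀ x y x' y', ‖x‖ < δ → ‖y‖ < δ → ‖x'‖ < δ → ‖y'‖ < δ →
        ‖μ x y - μ x' y' - (x - x') - (y - y')‖ ≤
          C * (‖x‖ + ‖y‖ + ‖x'‖ + ‖y'‖) * (‖x - x'‖ + ‖y - y'‖) :=
  exists_chart_of (fun _ hε => edist_chart (1 : G) hε)

end G

/-- `R` is a biquotient, in terms of the Riemannian manifold classes of Mathlib. -/
def IsBiquotientM.{u} (R : Type*) [PseudoEMetricSpace R] : Prop :=
  ∃ (n : ℕ) (G : Type u) (_ : Group G) (_ : EMetricSpace G)
    (_ : ChartedSpace (EuclideanSpace ℝ (Fin n)) G) (_ : LieGroup (𝓡 n) ∞ G)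
    (_ : CompactSpace G) (_ : RiemannianBundle (fun x : G => TangentSpace (𝓡 n) x))
    (_ : IsContMDiffRiemannianBundle (𝓡 n) ∞ (EuclideanSpace ℝ (Fin n))
      (fun x : G => TangentSpace (𝓡 n) x))
    (_ : IsRiemannianManifold (𝓡 n) G),
    (∀ (g x : G) (v : TangentSpace (𝓡 n) x), ‖mfderiv (𝓡 n) (𝓡 n) (fun y => g * y) x v‖ = ‖v‖) ∧
    (∀ (g x : G) (v : TangentSpace (𝓡 n) x), ‖mfderiv (𝓡 n) (𝓡 n) (fun y => y * g) x v‖ = ‖v‖) ∧
    ∃ (Γ : Subgroup (G ≃ᵢ G)) (p : G → R), IsQuotientBy Γ p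

theorem isBiquotientM.{u} {R : Type*} [PseudoEMetricSpace R] (h : IsBiquotient.{u} R) :
    IsBiquotientM.{u} R := by
  obtain ⟨n, G, ig, im, ic, imf, g, hcomp, hlie, hdist, ⟨hl, hr⟩, Γ, p, hp⟩ := h
  let ic' : ChartedSpace (EuclideanSpace ℝ (Fin n)) G := ic
  have imf' : IsManifold (𝓡 n) ∞ G := imf
  let g' : ContMDiffRiemannianMetric (𝓡 n) ∞ (EuclideanSpace ℝ (Fin n))
    (fun x : G => TangentSpace (𝓡 n) x) := g
  let rb : RiemannianBundle (fun x : G => TangentSpace (𝓡 n) x) := ⟨g'.toRiemannianMetric⟩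
  have hv : ∀ (x : G) (v : TangentSpace (𝓡 n) x), ‖v‖ = vnorm g x v := by
    intro x v
    rw [norm_eq_sqrt_real_inner]
    rfl
  refine ⟨n, G, ig, im, ic', hlie, hcomp, rb, ⟨g'.inner, g'.contMDiff, fun _ _ _ => rfl⟩, hdist,
    ?_, ?_, Γ, p, hp⟩
  · intro a x v
    have h1 := hl a x v
    rw [hv, hv]
    exact h1
  · intro a x v
    have h1 := hr a x v
    rw [hv, hv]
    exact h1

theorem not_isBiquotient.{u} {a b : ℝ} (hab : |a| + |b| ≤ 1 / 2) (hirr : Irrational (a / b))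
    {R : Type*} [MetricSpace R] (f : R ≃ sphere (0 : ℍ[ℝ]) 1)
    (hf : ∀ x y : R, dist x y = dR a b (f x : ℍ[ℝ]) (f y : ℍ[ℝ])) : ¬ IsBiquotientM.{u} R := by
  rintro ⟨n, G, i1, i2, i3, i4, i5, i6, i7, i8, hl, hr, Γ, p, hp⟩
  obtain ⟨F⟩ := exists_geoFamily hab hirr R f hf
  obtain ⟨K, j1, j2, j3, hK, c, q, hq, h1⟩ := exists_metric_group (n := n) (G := G)
    (fun g x y => edist_mul_left' (n := n) hl g x y)
    (fun g x y => edist_mul_right' (n := n) hr g x y)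
    (fun x y h => exists_midpoint (n := n) x y h) (exists_chart (n := n)) Γ p hp F.x₀
  obtain ⟨exp, hadd, hlip, hnear⟩ := exists_exp hK c
  obtain ⟨e, -⟩ := preExp_of_exp hK c exp hadd hlip hnear
  let E : ExpMap K (EuclideanSpace ℝ (Fin n)) :=
    { e with
      conj := preExp_conj hK e
      surj := preExp_surj hK e }
  obtain ⟨T⟩ := exists_torus hK E
  exact no_submetry hK E T F q hq h1

theorem not_isBiquotient_of_edist.{u} {a b : ℝ} (hab : |a| + |b| ≤ 1 / 2)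
    (hirr : Irrational (a / b)) {R : Type*} [EMetricSpace R] (f : R ≃ sphere (0 : ℍ[ℝ]) 1)
    (hf : ∀ x y : R, edist x y = ENNReal.ofReal (dR a b (f x : ℍ[ℝ]) (f y : ℍ[ℝ]))) :
    ¬ IsBiquotient.{u} R := by
  intro hB
  replace hB := isBiquotientM.{u} hB
  have hfin : ∀ x y : R, edist x y ≠ ⊤ := fun x y => by rw [hf]; exact ENNReal.ofReal_ne_top
  let ms : MetricSpace R := EMetricSpace.toMetricSpace hfin
  have hd : ∀ x y : R, dist x y = dR a b (f x : ℍ[ℝ]) (f y : ℍ[ℝ]) := by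
    intro x y
    change (edist x y).toReal = _
    rw [hf, ENNReal.toReal_ofReal (dR_nonneg _ _ _ _)]
  have key := not_isBiquotient.{u} hab hirr f hd
  exact key hB

theorem isQuotientBy_of_edist {a b : ℝ} {R : Type*} [EMetricSpace R]
    (f : R ≃ sphere (0 : ℍ[ℝ]) 1)
    (hf : ∀ x y : R, edist x y = ENNReal.ofReal (dR a b (f x : ℍ[ℝ]) (f y : ℍ[ℝ]))) :
    ∃ (Γ : Subgroup (HH ≃ᵢ HH)) (p : HH → R), IsQuotientBy Γ p := by
  obtain ⟨Γ, p, hp1, hp2, hp3⟩ := hilbert_quotient a b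
  refine ⟨Γ, fun w => f.symm ⟨p w, by simp [hp1 w]⟩, ?_, ?_⟩
  · intro x
    obtain ⟨w, hw⟩ := hp2 (f x) (by simpa using (f x).2)
    refine ⟨w, ?_⟩
    rw [Equiv.symm_apply_eq]
    exact Subtype.ext hw
  · intro x y
    rw [hf, Equiv.apply_symm_apply, Equiv.apply_symm_apply]
    exact hp3 x y

instance : TopologicalSpace.SeparableSpace HH := by
  have : MeasureTheory.IsSeparable μI := by
    unfold μI
    infer_instance
  have : Fact ((2 : ℝ≥0∞) ≠ ⊤) := ⟨by norm_num⟩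
  have : SecondCountableTopology (MeasureTheory.Lp ℍ[ℝ] 2 μI) := inferInstance
  infer_instance

theorem isQuotientBy_of_edist_any.{v} {a b : ℝ} {R : Type*} [EMetricSpace R]
    (f : R ≃ sphere (0 : ℍ[ℝ]) 1)
    (hf : ∀ x y : R, edist x y = ENNReal.ofReal (dR a b (f x : ℍ[ℝ]) (f y : ℍ[ℝ])))
    (H : Type v) [NormedAddCommGroup H] [InnerProductSpace ℝ H] [CompleteSpace H]
    (hH : ¬ FiniteDimensional ℝ H) :
    ∃ (Γ : Subgroup (H ≃ᵢ H)) (p : H → R), IsQuotientBy Γ p := by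
  obtain ⟨Γ, p, hp⟩ := isQuotientBy_of_edist f hf
  exact infinite_dim_any hp H hH

/-- A compact manifold with a smooth metric tensor is a Riemannian manifold for its Riemannian
distance. -/
theorem exists_riemannian_of {M : Type} [TopologicalSpace M]
    [ChartedSpace (EuclideanSpace ℝ (Fin 3)) M] [IsManifold (𝓡 3) ∞ M] [CompactSpace M]
    [T2Space M] [SimplyConnectedSpace M]
    (g : ContMDiffRiemannianMetric (𝓡 3) ∞ (EuclideanSpace ℝ (Fin 3))
      (fun x : M => TangentSpace (𝓡 3) x)) (P : ∀ (R : Type) (_ : EMetricSpace R), Prop)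
    (hP : ∀ em : EMetricSpace M, (∀ x y : M, em.edist x y =
      (letI : RiemannianBundle (fun x : M => TangentSpace (𝓡 3) x) := ⟨g.toRiemannianMetric⟩
       Manifold.riemannianEDist (𝓡 3) x y)) → P M em) :
    ∃ (R : Type) (_ : EMetricSpace R) (_ : ChartedSpace (EE 3) R)
      (_ : IsManifold 𝓘(ℝ, EE 3) ∞ R) (g : RMetric 3 R),
      IsDistOf g ∧ CompactSpace R ∧ SimplyConnectedSpace R ∧ P R inferInstance := by
  let rb : RiemannianBundle (fun x : M => TangentSpace (𝓡 3) x) := ⟨g.toRiemannianMetric⟩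
  have hc : IsContMDiffRiemannianBundle (𝓡 3) ∞ (EuclideanSpace ℝ (Fin 3))
        (fun x : M => TangentSpace (𝓡 3) x) :=
    ⟨g.inner, g.contMDiff, fun _ _ _ => rfl⟩
  have hcont : IsContinuousRiemannianBundle (EuclideanSpace ℝ (Fin 3))
        (fun x : M => TangentSpace (𝓡 3) x) :=
    ⟨g.inner, g.contMDiff.continuous, fun _ _ _ => rfl⟩
  let em : EMetricSpace M := EMetricSpace.ofRiemannianMetric (𝓡 3) M
  have hem : IsRiemannianManifold (𝓡 3) M := inferInstance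
  exact ⟨M, em, (inferInstance : ChartedSpace (EuclideanSpace ℝ (Fin 3)) M),
    (inferInstance : IsManifold (𝓡 3) ∞ M), g, hem, inferInstance, inferInstance,
    hP _ fun x y => rfl⟩

/-- The sphere with a smooth Riemannian metric whose Riemannian distance is `dR`. -/
theorem exists_riemannian {a b : ℝ} (P : ∀ (R : Type) (_ : EMetricSpace R), Prop)
    (hP : ∀ (em : EMetricSpace (sphere (0 : ℍ[ℝ]) 1)),
      (∀ x y : sphere (0 : ℍ[ℝ]) 1, em.edist x y = ENNReal.ofReal (dR a b x y)) → P _ em) :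
    ∃ (R : Type) (_ : EMetricSpace R) (_ : ChartedSpace (EE 3) R)
      (_ : IsManifold 𝓘(ℝ, EE 3) ∞ R) (g : RMetric 3 R),
      IsDistOf g ∧ CompactSpace R ∧ SimplyConnectedSpace R ∧ P R inferInstance := by
  obtain ⟨g, hg⟩ := exists_metric_tensor a b
  have hsc := simplyConnected_sphere
  refine exists_riemannian_of g P fun em hem => hP em fun x y => ?_
  rw [hem]
  let rb : RiemannianBundle (fun x : sphere (0 : ℍ[ℝ]) 1 => TangentSpace (𝓡 3) x) :=
    ⟨g.toRiemannianMetric⟩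
  have hnorm : ∀ (x : sphere (0 : ℍ[ℝ]) 1) (v : TangentSpace (𝓡 3) x), ‖v‖ ^ 2 =
        ‖dι x v‖ ^ 2 - inner ℝ (dι x v) (killing a b x) ^ 2 /
          (1 + ‖killing a b (x : ℍ[ℝ])‖ ^ 2) := by
    intro x v
    rw [← hg, ← real_inner_self_eq_norm_sq]
    rfl
  exact le_antisymm (riemannianEDist_le a b hnorm x y) (le_riemannianEDist a b hnorm x y)

/-- **The counterexample**: there is a compact simply connected Riemannian manifold which is
isometric to a quotient of every infinite-dimensional real Hilbert space by a group of isometries,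
and which is not isometric to a biquotient. -/
theorem counterexample.{u, v} :
    ∃ (R : Type) (_ : EMetricSpace R) (_ : ChartedSpace (EE 3) R)
      (_ : IsManifold 𝓘(ℝ, EE 3) ∞ R) (g : RMetric 3 R),
      IsDistOf g ∧ CompactSpace R ∧ SimplyConnectedSpace R ∧
      (∀ (H : Type v) [NormedAddCommGroup H] [InnerProductSpace ℝ H] [CompleteSpace H],
        ¬ FiniteDimensional ℝ H → ∃ (Γ : Subgroup (H ≃ᵢ H)) (p : H → R), IsQuotientBy Γ p) ∧
      ¬ IsBiquotient.{u} R := by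
  have h2 : Real.sqrt 2 ≤ 3 / 2 := by
    rw [Real.sqrt_le_left (by norm_num)]; norm_num
  have hab : |Real.sqrt 2 / 8| + |(1 / 8 : ℝ)| ≤ 1 / 2 := by
    rw [abs_of_nonneg (by positivity), abs_of_nonneg (by norm_num)]
    linarith
  have hirr : Irrational (Real.sqrt 2 / 8 / (1 / 8)) := by
    have : Real.sqrt 2 / 8 / (1 / 8) = Real.sqrt 2 := by ring
    rw [this]
    exact irrational_sqrt_two
  refine exists_riemannian (a := Real.sqrt 2 / 8) (b := 1 / 8)
    (fun R em => (∀ (H : Type v) [NormedAddCommGroup H] [InnerProductSpace ℝ H] [CompleteSpace H],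
        ¬ FiniteDimensional ℝ H → ∃ (Γ : Subgroup (H ≃ᵢ H)) (p : H → R), IsQuotientBy Γ p) ∧
      ¬ IsBiquotient.{u} R) fun em hem => ?_
  exact ⟨fun H _ _ _ hH =>
      @isQuotientBy_of_edist_any.{v, 0} _ _ (sphere (0 : ℍ[ℝ]) 1) em (Equiv.refl _) hem H _ _ _ hH,
    @not_isBiquotient_of_edist _ _ hab hirr (sphere (0 : ℍ[ℝ]) 1) em (Equiv.refl _) hem⟩

end Helper99.BQ
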