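import Mathlib
import Pool.Agent.Helper99.BQ.Statement

/-!
MP_986e36_gt, Q2: Riemannian submersions from a Hilbert space.
-/

open scoped Manifold ContDiff ENNReal Topology
open Bundle Set Metric

noncomputable section

namespace Helper99.BQ

section

variable {n : ℕ} {R : Type*} [TopologicalSpace R] [ChartedSpace (EE n) R]
  {H : Type*} [NormedAddCommGroup H] [InnerProductSpace ℝ H]

/-- The differential at `x` of a map `f` from a Hilbert space to a manifold. -/
def tderiv (f : H → R) (x : H) : H →L[ℝ] EE n := mfderiv 𝓘(ℝ, H) 𝓘(ℝ, EE n) f x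

variable [IsManifold 𝓘(ℝ, EE n) ∞ R]

/-- `f` is a (smooth, onto) Riemannian submersion from the Hilbert space `H` onto the Riemannian
manifold `(R, g)`: every differential is onto and preserves the norm of the vectors orthogonal to
its kernel. -/
def IsRiemSubmersion (g : RMetric n R) (f : H → R) : Prop :=
  ContMDiff 𝓘(ℝ, H) 𝓘(ℝ, EE n) ∞ f ∧ Function.Surjective f ∧
  ∀ x : H, Function.Surjective (tderiv (n := n) f x) ∧
    ∀ v ∈ (LinearMap.ker (tderiv (n := n) f x).toLinearMap)ᗮ, vnorm g (f x) (tderiv (n := n) f x v) = ‖v‖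

end

end Helper99.BQ
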