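import Mathlib

/-!
MP_986e36_gt, Q2: linear algebra of the composition of a coisometry with the projection to a
quotient by a line.
-/

open scoped ENNReal Topology
open Set Metric

noncomputable section

namespace Helper99.BQ

section
variable {H E T : Type*} [NormedAddCommGroup H] [InnerProductSpace ℝ H] [CompleteSpace H]
  [NormedAddCommGroup E] [InnerProductSpace ℝ E] [CompleteSpace E] [AddCommGroup T] [Module ℝ T]

theorem coiso_ortho (D : H →ₗ[ℝ] T) (N : T → ℝ) (hN0 : N 0 = 0) (hN : ∀ t, N t = 0 → t = 0)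
    (M : H →L[ℝ] E) (hM : ∀ u : E, M (ContinuousLinearMap.adjoint M u) = u) (u₀ : E)
    (hu₀ : u₀ ≠ 0) (hD : ∀ v : H, N (D v) = ‖M v‖ ^ 2 - inner ℝ (M v) u₀ ^ 2 / ‖u₀‖ ^ 2) :
    (∀ v ∈ (LinearMap.ker D)ᗮ, N (D v) = ‖v‖ ^ 2) ∧
      ∀ z : E, inner ℝ z u₀ = (0 : ℝ) → D (ContinuousLinearMap.adjoint M z) = 0 → z = 0 := by
  have hu : ‖u₀‖ ^ 2 ≠ 0 := pow_ne_zero 2 (norm_ne_zero_iff.mpr hu₀)
  have hker : ∀ v : H, M v = 0 → D v = 0 := by
    intro v hv
    apply hN
    rw [hD, hv]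
    simp
  have hu0 : D (ContinuousLinearMap.adjoint M u₀) = 0 := by
    apply hN
    rw [hD, hM, real_inner_self_eq_norm_sq]
    field_simp
    ring
  refine ⟨fun v hv => ?_, fun z hz h => ?_⟩
  · rw [Submodule.mem_orthogonal] at hv
    have h1 : inner ℝ (M v) u₀ = (0 : ℝ) := by
      have := hv _ (LinearMap.mem_ker.mpr hu0)
      rw [ContinuousLinearMap.adjoint_inner_left, real_inner_comm] at this
      exact this
    have h2 : inner ℝ (v - ContinuousLinearMap.adjoint M (M v)) v = (0 : ℝ) := by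
      apply hv
      apply LinearMap.mem_ker.mpr
      apply hker
      rw [map_sub, hM, sub_self]
    rw [inner_sub_left, ContinuousLinearMap.adjoint_inner_left, real_inner_self_eq_norm_sq,
      real_inner_self_eq_norm_sq] at h2
    rw [hD, h1]
    have : (0 : ℝ) ^ 2 / ‖u₀‖ ^ 2 = 0 := by simp
    rw [this]
    linarith
  · have h1 := hD (ContinuousLinearMap.adjoint M z)
    rw [h, hN0, hM, hz] at h1
    have h2 : ‖z‖ ^ 2 = 0 := by
      have : (0 : ℝ) ^ 2 / ‖u₀‖ ^ 2 = 0 := by simp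
      rw [this] at h1
      linarith
    exact norm_eq_zero.mp (pow_eq_zero_iff two_ne_zero |>.mp h2)

theorem coiso_surj [FiniteDimensional ℝ E] [FiniteDimensional ℝ T] {n : ℕ}
    (hE : Module.finrank ℝ E = n + 1) (hT : Module.finrank ℝ T = n)
    (D : H →ₗ[ℝ] T) (N : T → ℝ) (hN0 : N 0 = 0) (hN : ∀ t, N t = 0 → t = 0)
    (M : H →L[ℝ] E) (hM : ∀ u : E, M (ContinuousLinearMap.adjoint M u) = u) (u₀ : E)
    (hu₀ : u₀ ≠ 0) (hD : ∀ v : H, N (D v) = ‖M v‖ ^ 2 - inner ℝ (M v) u₀ ^ 2 / ‖u₀‖ ^ 2) :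
    Function.Surjective D := by
  have h1 := (coiso_ortho D N hN0 hN M hM u₀ hu₀ hD).2
  let L : (Submodule.span ℝ {u₀})ᗮ →ₗ[ℝ] T :=
    D ∘ₗ (ContinuousLinearMap.adjoint M).toLinearMap ∘ₗ (Submodule.span ℝ {u₀})ᗮ.subtype
  have hL : Function.Injective L := by
    rw [injective_iff_map_eq_zero]
    intro z hz
    apply Subtype.ext
    refine h1 z ?_ hz
    rw [real_inner_comm]
    exact Submodule.mem_orthogonal_singleton_iff_inner_right.mp z.2
  have hfact : Fact (Module.finrank ℝ E = n + 1) := ⟨hE⟩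
  have hfin : Module.finrank ℝ (Submodule.span ℝ {u₀})ᗮ = Module.finrank ℝ T := by
    rw [Submodule.finrank_orthogonal_span_singleton (n := n) hu₀, hT]
  have hLs : Function.Surjective L :=
    (LinearMap.injective_iff_surjective_of_finrank_eq_finrank hfin).mp hL
  intro t
  obtain ⟨z, hz⟩ := hLs t
  exact ⟨_, hz⟩

end

end Helper99.BQ
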