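import Pool.Agent.Helper35.BQ.S2
import Pool.Agent.Helper7.BQ.H5
import Pool.Agent.Helper99.BQ.SubLin

/-!
MP_986e36_gt, Q2: the Riemannian submersion onto the sphere.
-/

open scoped Manifold ContDiff Quaternion ENNReal Topology
open Bundle Set Metric

noncomputable section

namespace Helper99.BQ

/-- properties of the end point map -/
def HolProp (hol : HH → ℍ[ℝ]) : Prop :=
  (∀ f, hol f ≠ 0) ∧
    (∀ (g : ℝ → ℍ[ℝ]) (hg : IsPath g), g 0 = 1 → hol (wLp g hg) = g 1) ∧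
    ContDiff ℝ ∞ hol ∧
    ∀ (w : HH) (A : HH →L[ℝ] ℍ[ℝ]), (∀ v, hol w * A v = fderiv ℝ hol w v) →
      ∀ u : ℍ[ℝ], A (ContinuousLinearMap.adjoint A u) = u

/-- properties of the projection -/
def ProjProp (a b : ℝ) : Prop := ∀ h : ℍ[ℝ], h ≠ 0 →
    ContDiffAt ℝ ∞ (proj a b) h ∧
    ∃ u₀ : ℍ[ℝ], u₀ ≠ 0 ∧ ∀ u : ℍ[ℝ],
      ‖fderiv ℝ (proj a b) h (h * u)‖ ^ 2 -
        inner ℝ (fderiv ℝ (proj a b) h (h * u)) (killing a b (proj a b h)) ^ 2 /
          (1 + ‖killing a b (proj a b h)‖ ^ 2) =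
      ‖u‖ ^ 2 - inner ℝ u u₀ ^ 2 / ‖u₀‖ ^ 2

theorem exists_submersion {a b : ℝ} {hol : HH → ℍ[ℝ]} (hhol : HolProp hol)
    (hproj : ProjProp a b) {H : Type*} [NormedAddCommGroup H] [InnerProductSpace ℝ H]
    [CompleteSpace H] (J : HH →ₗᵢ[ℝ] H)
    (g : ContMDiffRiemannianMetric (𝓡 3) ∞ (EuclideanSpace ℝ (Fin 3))
      (fun x : sphere (0 : ℍ[ℝ]) 1 => TangentSpace (𝓡 3) x))
    (hg : ∀ (x : sphere (0 : ℍ[ℝ]) 1) (v : TangentSpace (𝓡 3) x), g.inner x v v =
        ‖dι x v‖ ^ 2 - inner ℝ (dι x v) (killing a b x) ^ 2 /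
          (1 + ‖killing a b (x : ℍ[ℝ])‖ ^ 2)) :
    ∃ f : H → sphere (0 : ℍ[ℝ]) 1, ContMDiff 𝓘(ℝ, H) (𝓡 3) ∞ f ∧ Function.Surjective f ∧
      ∀ x : H, ∀ D : H →ₗ[ℝ] EuclideanSpace ℝ (Fin 3),
        (∀ v, D v = mfderiv 𝓘(ℝ, H) (𝓡 3) f x v) → Function.Surjective D ∧
          ∀ v ∈ (LinearMap.ker D)ᗮ, √(g.inner (f x) (D v) (D v)) = ‖v‖ := by
  obtain ⟨hne, hpath, hsm, hco⟩ := hhol
  let P : H →L[ℝ] HH := ContinuousLinearMap.adjoint J.toContinuousLinearMap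
  have hPJ : ∀ x : HH, P (J x) = x := by
    intro x
    refine ext_inner_right ℝ fun y => ?_
    rw [ContinuousLinearMap.adjoint_inner_left]
    exact J.inner_map_map x y
  let G : H → ℍ[ℝ] := fun x => proj a b (hol (P x))
  have hG1 : ∀ x, ‖G x‖ = 1 := fun x => norm_proj a b (hne _)
  have hGs : ContDiff ℝ ∞ G := by
    rw [contDiff_iff_contDiffAt]
    intro x
    exact (hproj _ (hne (P x))).1.comp x (hsm.contDiffAt.comp x P.contDiff.contDiffAt)
  have hGmem : ∀ x, G x ∈ sphere (0 : ℍ[ℝ]) 1 := fun x => by simp [hG1 x]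
  let f : H → sphere (0 : ℍ[ℝ]) 1 := Set.codRestrict G _ hGmem
  have hfs : ContMDiff 𝓘(ℝ, H) (𝓡 3) ∞ f :=
    ContMDiff.codRestrict_sphere hGs.contMDiff hGmem
  refine ⟨f, hfs, ?_, ?_⟩
  · intro y
    have hy : ‖(y : ℍ[ℝ])‖ = 1 := by simpa using y.2
    have hy0 : (y : ℍ[ℝ]) ≠ 0 := by
      rw [← norm_pos_iff, hy]; exact one_pos
    obtain ⟨q, ξ, hq, q0, q1, -, -⟩ := exists_segment hy0
    refine ⟨J (wLp q hq), Subtype.ext ?_⟩
    change proj a b (hol (P (J (wLp q hq)))) = y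
    rw [hPJ, hpath q hq q0, q1, proj_of_norm_one a b hy]
  · intro x D hD
    obtain ⟨hps, u₀, hu₀, hN⟩ := hproj _ (hne (P x))
    -- the trivialised derivative of the end point map
    let A : HH →L[ℝ] ℍ[ℝ] :=
      (ContinuousLinearMap.mul ℝ ℍ[ℝ] (hol (P x))⁻¹).comp (fderiv ℝ hol (P x))
    have hA : ∀ v, hol (P x) * A v = fderiv ℝ hol (P x) v := by
      intro v
      change hol (P x) * ((hol (P x))⁻¹ * fderiv ℝ hol (P x) v) = _
      rw [mul_inv_cancel_left₀ (hne _)]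
    have hAA := hco (P x) A hA
    let M : H →L[ℝ] ℍ[ℝ] := A.comp P
    have hM : ∀ u : ℍ[ℝ], M (ContinuousLinearMap.adjoint M u) = u := by
      intro u
      have h1 : ContinuousLinearMap.adjoint M =
          J.toContinuousLinearMap.comp (ContinuousLinearMap.adjoint A) := by
        rw [ContinuousLinearMap.adjoint_comp, ContinuousLinearMap.adjoint_adjoint]
      rw [h1]
      change A (P (J (ContinuousLinearMap.adjoint A u))) = u
      rw [hPJ, hAA]
    -- derivative of `G`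
    have hGd : ∀ v, fderiv ℝ G x v = fderiv ℝ (proj a b) (hol (P x)) (hol (P x) * M v) := by
      intro v
      have d1 : HasFDerivAt (proj a b) (fderiv ℝ (proj a b) (hol (P x))) (hol (P x)) :=
        (hps.differentiableAt (by norm_num)).hasFDerivAt
      have d2 : HasFDerivAt hol (fderiv ℝ hol (P x)) (P x) :=
        (hsm.differentiable (by norm_num) _).hasFDerivAt
      have d3 : HasFDerivAt G ((fderiv ℝ (proj a b) (hol (P x))).comp
          ((fderiv ℝ hol (P x)).comp P)) x :=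
        HasFDerivAt.comp (g := proj a b) (f := fun y => hol (P y)) x d1
          (HasFDerivAt.comp (g := hol) (f := P) x d2 P.hasFDerivAt)
      rw [d3.fderiv]
      change fderiv ℝ (proj a b) (hol (P x)) (fderiv ℝ hol (P x) (P v)) = _
      rw [← hA]
      rfl
    -- derivative of `f`
    have hfd : ∀ v : H, dι (f x) (D v) = fderiv ℝ G x v := by
      intro v
      have d1 : MDifferentiableAt (𝓡 3) 𝓘(ℝ, ℍ[ℝ])
          (fun y : sphere (0 : ℍ[ℝ]) 1 => (y : ℍ[ℝ])) (f x) :=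
        (contMDiff_coe_sphere (n := 3) (m := ∞) (E := ℍ[ℝ])).mdifferentiable (by norm_num) _
      have d2 : MDifferentiableAt 𝓘(ℝ, H) (𝓡 3) f x := hfs.mdifferentiable (by norm_num) _
      have d3 := mfderiv_comp x d1 d2
      have d4 : (fun y : sphere (0 : ℍ[ℝ]) 1 => (y : ℍ[ℝ])) ∘ f = G := rfl
      rw [d4, mfderiv_eq_fderiv] at d3
      rw [d3, hD]
      rfl
    let N : EuclideanSpace ℝ (Fin 3) → ℝ := fun t => g.inner (f x) t t
    have hN0 : N 0 = 0 := by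
      change g.inner (f x) 0 0 = 0
      simp
    have hNpos : ∀ t, N t = 0 → t = 0 := by
      intro t ht
      by_contra h
      exact (g.pos (f x) t h).ne' ht
    have hDN : ∀ v : H, N (D v) = ‖M v‖ ^ 2 - inner ℝ (M v) u₀ ^ 2 / ‖u₀‖ ^ 2 := by
      intro v
      change g.inner (f x) (D v) (D v) = _
      rw [hg, hfd, hGd, ← hN]
      rfl
    refine ⟨coiso_surj (n := 3) Quaternion.finrank_eq_four (by simp) D N hN0 hNpos M hM u₀ hu₀ hDN,
      fun v hv => ?_⟩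
    have h1 := (coiso_ortho D N hN0 hNpos M hM u₀ hu₀ hDN).1 v hv
    change √(N (D v)) = ‖v‖
    rw [h1, Real.sqrt_sq (norm_nonneg _)]

end Helper99.BQ
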