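import Pool.Agent.Helper99.BQ.Main
import Pool.Agent.Helper99.BQ.StatementQ2
import Pool.Agent.Helper99.BQ.Sub5

/-!
MP_986e36_gt, Q2: assembly.
-/

open scoped Manifold ContDiff Quaternion ENNReal Topology
open Bundle Set Metric

noncomputable section

namespace Helper99.BQ

theorem isRiemSubmersion_of {M : Type} [TopologicalSpace M]
    [ic : ChartedSpace (EuclideanSpace ℝ (Fin 3)) M] [im : IsManifold (𝓡 3) ∞ M]
    (g : ContMDiffRiemannianMetric (𝓡 3) ∞ (EuclideanSpace ℝ (Fin 3))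
      (fun x : M => TangentSpace (𝓡 3) x))
    {H : Type*} [NormedAddCommGroup H] [InnerProductSpace ℝ H] (f : H → M)
    (hf : ContMDiff 𝓘(ℝ, H) (𝓡 3) ∞ f) (hfs : Function.Surjective f)
    (hD : ∀ x : H, ∀ D : H →ₗ[ℝ] EuclideanSpace ℝ (Fin 3),
        (∀ v, D v = mfderiv 𝓘(ℝ, H) (𝓡 3) f x v) → Function.Surjective D ∧
          ∀ v ∈ (LinearMap.ker D)ᗮ, √(g.inner (f x) (D v) (D v)) = ‖v‖) :
    @IsRiemSubmersion 3 M _ ic H _ _ im g f := by
  refine ⟨hf, hfs, fun x => ?_⟩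
  exact hD x (@tderiv 3 M _ ic H _ _ f x).toLinearMap (fun v => rfl)

theorem exists_riemannian_of2.{v} {M : Type} [TopologicalSpace M]
    [ChartedSpace (EuclideanSpace ℝ (Fin 3)) M] [IsManifold (𝓡 3) ∞ M] [CompactSpace M]
    [T2Space M] [SimplyConnectedSpace M]
    (g : ContMDiffRiemannianMetric (𝓡 3) ∞ (EuclideanSpace ℝ (Fin 3))
      (fun x : M => TangentSpace (𝓡 3) x)) (P : ∀ (R : Type) (_ : EMetricSpace R), Prop)
    (hP : ∀ em : EMetricSpace M, (∀ x y : M, em.edist x y =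
      (letI : RiemannianBundle (fun x : M => TangentSpace (𝓡 3) x) := ⟨g.toRiemannianMetric⟩
       Manifold.riemannianEDist (𝓡 3) x y)) → P M em)
    (hsub : ∀ (H : Type v) [NormedAddCommGroup H] [InnerProductSpace ℝ H] [CompleteSpace H],
        ¬ FiniteDimensional ℝ H → ∃ f : H → M, ContMDiff 𝓘(ℝ, H) (𝓡 3) ∞ f ∧
          Function.Surjective f ∧
          ∀ x : H, ∀ D : H →ₗ[ℝ] EuclideanSpace ℝ (Fin 3),
          (∀ v, D v = mfderiv 𝓘(ℝ, H) (𝓡 3) f x v) → Function.Surjective D ∧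
          ∀ v ∈ (LinearMap.ker D)ᗮ, √(g.inner (f x) (D v) (D v)) = ‖v‖) :
    ∃ (R : Type) (_ : EMetricSpace R) (_ : ChartedSpace (EE 3) R)
      (_ : IsManifold 𝓘(ℝ, EE 3) ∞ R) (g : RMetric 3 R),
      IsDistOf g ∧ CompactSpace R ∧ SimplyConnectedSpace R ∧
      (∀ (H : Type v) [NormedAddCommGroup H] [InnerProductSpace ℝ H] [CompleteSpace H],
        ¬ FiniteDimensional ℝ H → ∃ f : H → R, IsRiemSubmersion g f) ∧ P R inferInstance := by
  let rb : RiemannianBundle (fun x : M => TangentSpace (𝓡 3) x) := ⟨g.toRiemannianMetric⟩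
  have hc : IsContMDiffRiemannianBundle (𝓡 3) ∞ (EuclideanSpace ℝ (Fin 3))
        (fun x : M => TangentSpace (𝓡 3) x) :=
    ⟨g.inner, g.contMDiff, fun _ _ _ => rfl⟩
  have hcont : IsContinuousRiemannianBundle (EuclideanSpace ℝ (Fin 3))
        (fun x : M => TangentSpace (𝓡 3) x) :=
    ⟨g.inner, g.contMDiff.continuous, fun _ _ _ => rfl⟩
  let em : EMetricSpace M := EMetricSpace.ofRiemannianMetric (𝓡 3) M
  have hem : IsRiemannianManifold (𝓡 3) M := inferInstance
  refine ⟨M, em, (inferInstance : ChartedSpace (EuclideanSpace ℝ (Fin 3)) M),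
    (inferInstance : IsManifold (𝓡 3) ∞ M), g, hem, inferInstance, inferInstance,
    fun H _ _ _ hH => ?_, hP _ fun x y => rfl⟩
  obtain ⟨f, hf, hfs, hD⟩ := hsub H hH
  exact ⟨f, isRiemSubmersion_of g f hf hfs hD⟩

/-- The sphere with a smooth Riemannian metric whose Riemannian distance is `dR`, with the
submersions. -/
theorem exists_riemannian2.{v} {a b : ℝ} {hol : HH → ℍ[ℝ]} (hhol : HolProp hol)
    (hproj : ProjProp a b) (P : ∀ (R : Type) (_ : EMetricSpace R), Prop)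
    (hP : ∀ (em : EMetricSpace (sphere (0 : ℍ[ℝ]) 1)),
      (∀ x y : sphere (0 : ℍ[ℝ]) 1, em.edist x y = ENNReal.ofReal (dR a b x y)) → P _ em) :
    ∃ (R : Type) (_ : EMetricSpace R) (_ : ChartedSpace (EE 3) R)
      (_ : IsManifold 𝓘(ℝ, EE 3) ∞ R) (g : RMetric 3 R),
      IsDistOf g ∧ CompactSpace R ∧ SimplyConnectedSpace R ∧
      (∀ (H : Type v) [NormedAddCommGroup H] [InnerProductSpace ℝ H] [CompleteSpace H],
        ¬ FiniteDimensional ℝ H → ∃ f : H → R, IsRiemSubmersion g f) ∧ P R inferInstance := by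
  obtain ⟨g, hg⟩ := exists_metric_tensor a b
  have hsc := simplyConnected_sphere
  refine exists_riemannian_of2.{v} g P (fun em hem => hP em fun x y => ?_) fun H _ _ _ hH => ?_
  · rw [hem]
    let rb : RiemannianBundle (fun x : sphere (0 : ℍ[ℝ]) 1 => TangentSpace (𝓡 3) x) :=
      ⟨g.toRiemannianMetric⟩
    have hnorm : ∀ (x : sphere (0 : ℍ[ℝ]) 1) (v : TangentSpace (𝓡 3) x), ‖v‖ ^ 2 =
          ‖dι x v‖ ^ 2 - inner ℝ (dι x v) (killing a b x) ^ 2 /
            (1 + ‖killing a b (x : ℍ[ℝ])‖ ^ 2) := by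
      intro x v
      rw [← hg, ← real_inner_self_eq_norm_sq]
      rfl
    exact le_antisymm (riemannianEDist_le a b hnorm x y) (le_riemannianEDist a b hnorm x y)
  · obtain ⟨J⟩ := exists_embedding HH H hH
    exact exists_submersion hhol hproj J g hg

/-- **The counterexample to Q2**. -/
theorem counterexample2.{u, v} {hol : HH → ℍ[ℝ]} (hhol : HolProp hol)
    (hproj : ∀ a b : ℝ, ProjProp a b) :
    ∃ (R : Type) (_ : EMetricSpace R) (_ : ChartedSpace (EE 3) R)
      (_ : IsManifold 𝓘(ℝ, EE 3) ∞ R) (g : RMetric 3 R),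
      IsDistOf g ∧ CompactSpace R ∧ SimplyConnectedSpace R ∧
      (∀ (H : Type v) [NormedAddCommGroup H] [InnerProductSpace ℝ H] [CompleteSpace H],
        ¬ FiniteDimensional ℝ H → ∃ f : H → R, IsRiemSubmersion g f) ∧
      ¬ IsBiquotient.{u} R := by
  have h2 : Real.sqrt 2 ≤ 3 / 2 := by
    rw [Real.sqrt_le_left (by norm_num)]; norm_num
  have hab : |Real.sqrt 2 / 8| + |(1 / 8 : ℝ)| ≤ 1 / 2 := by
    rw [abs_of_nonneg (by positivity), abs_of_nonneg (by norm_num)]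
    linarith
  have hirr : Irrational (Real.sqrt 2 / 8 / (1 / 8)) := by
    have : Real.sqrt 2 / 8 / (1 / 8) = Real.sqrt 2 := by ring
    rw [this]
    exact irrational_sqrt_two
  exact exists_riemannian2.{v} (a := Real.sqrt 2 / 8) (b := 1 / 8) hhol (hproj _ _)
    (fun R em => ¬ IsBiquotient.{u} R) fun em hem =>
    @not_isBiquotient_of_edist _ _ hab hirr (sphere (0 : ℍ[ℝ]) 1) em (Equiv.refl _) hem

end Helper99.BQ
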